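import Pool.Agent.H40.NilReg

open Pool.Agent.H40.NilReg in
theorem Pool.Agent.Results.MP_8011ed_lc.Perfect.result :
    ∀ (K : Type) [Field K] (n : ℕ), 1 ≤ n → ∀ (r k : ℕ) (a b : Fin k → W K r n),
      SameTp K (W K r n) (W K r n) (fun u v => ⁅u, v⁆) (fun u v => ⁅u, v⁆) a b ↔
        ∃ σ : W K r n ≃ₗ⁅K⁆ W K r n, ∀ i, σ (a i) = b i :=
  fun K _ n _ r k a b => lie_perfect K n r k a b
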