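import Pool.Agent.H40.NilReg

open Pool.Agent.H40.NilReg in
theorem Pool.Agent.Results.MP_8011ed_lc.Regular.result :
    ∀ (K : Type) [Field K] (n : ℕ), 1 ≤ n → ∀ (r : ℕ) (H : Type) [LieRing H] [LieAlgebra K H],
      LieModule.lowerCentralSeries K H H n = ⊥ →
      Isotypic K (W K r n) H (fun u v => ⁅u, v⁆) (fun u v => ⁅u, v⁆) →
        Nonempty (W K r n ≃ₗ⁅K⁆ H) :=
  fun K _ n _ r H _ _ _ h => lie_regular K n r H h
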